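import Mathlib

set_option autoImplicit false

namespace Pool.Agent.Results.MP_91bf1e_al.Yes

open FreeGroup Set Filter

/-- The ball of radius `n` for the word length with respect to `X ∪ X⁻¹`. -/
def ball {G : Type} [Group G] (X : Set G) (n : ℕ) : Set G :=
  {g | ∃ l : List G, l.length ≤ n ∧ (∀ s ∈ l, s ∈ X ∨ s⁻¹ ∈ X) ∧ l.prod = g}

/-- The `φ`-conjugacy class of `y`. -/
def cls {G : Type} [Group G] (φ : G →* G) (y : G) : Set G := {x | ∃ z, x = z * y * (φ z)⁻¹}

/-- The `φ`-twisted conjugacy ratio. -/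
noncomputable def tcr {G : Type} [Group G] (φ : G →* G) (X : Set G) : ℝ :=
  limsup (fun n => ((cls φ '' ball X n).ncard : ℝ) / (ball X n).ncard) atTop

abbrev F := FreeGroup Bool

lemma lA (s : Bool × Bool) (u : F) (h : u.toWord.head? ≠ some (s.1, !s.2)) :
    (mk [s] * u).toWord = s :: u.toWord := by
  have h1 := isReduced_toWord (x := u)
  rw [← mk_toWord (x := u), mul_mk, mk_toWord, toWord_mk]
  refine IsReduced.reduce_eq ?_
  cases e : u.toWord with
  | nil => simp
  | cons t l =>
    rw [e] at h h1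
    refine isReduced_cons_cons.2 ⟨fun h2 => ?_, h1⟩
    exact (by decide : ∀ s t : Bool × Bool, some t ≠ some (s.1, !s.2) → s.1 = t.1 → s.2 = t.2)
      s t h h2

lemma lC (s : Bool × Bool) (u : F) : (mk [s] * u).toWord = s :: u.toWord ∨
    u.toWord = (s.1, !s.2) :: (mk [s] * u).toWord := by
  by_cases h : (mk [s] * u).toWord.head? = some s
  · refine .inl (lA s u fun h1 => ?_)
    have h2 := isReduced_toWord (x := u)
    obtain ⟨l, e⟩ := List.head?_eq_some_iff.1 h1
    have h3 : mk [s] * u = mk l := by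
      rw [← mk_toWord (x := u), e, mul_mk]
      exact Quot.sound (Red.Step.cons_not (x := s.1) (b := s.2))
    rw [e] at h2
    rw [h3, toWord_mk, IsReduced.reduce_eq (L := l) (List.IsChain.tail h2)] at h
    obtain ⟨l, rfl⟩ := List.head?_eq_some_iff.1 h
    simpa using (isReduced_cons_cons.1 h2).1
  · refine .inr ?_
    rw [← lA (s.1, !s.2) _ (by simpa using h), ← mul_assoc,
      show mk [(s.1, !s.2)] = (mk [s])⁻¹ from rfl, inv_mul_cancel, one_mul]

def P (s : Bool × Bool) (u : F) : Prop := ∃ l, u.toWord = s :: s :: l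

lemma lB {s t : Bool × Bool} {v : F} {l} (h : v.toWord = s :: s :: s :: l) :
    P s (v * (mk [t])⁻¹) := by
  have e : (v * (mk [t])⁻¹).toWord = invRev (mk [t] * v⁻¹).toWord := by
    rw [← toWord_inv, mul_inv_rev, inv_inv]
  rw [P, e]
  rcases lC t v⁻¹ with h1 | h1
  · rw [h1, invRev_cons, toWord_inv, invRev_invRev, h]
    exact ⟨_, rfl⟩
  · have h2 := congrArg invRev h1
    rw [toWord_inv, invRev_invRev, h, invRev_cons] at h2
    generalize invRev (mk [t] * v⁻¹).toWord = r at h2
    match r, h2 with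
    | [], h2 => simp [invRev] at h2
    | [_], h2 => simp [invRev] at h2
    | a :: b :: r, h2 =>
      simp only [List.cons_append, List.cons.injEq] at h2
      exact ⟨r, by rw [h2.1, ← h2.2.1, h2.1]⟩

def ψ : F →* F := FreeGroup.lift fun i => of i ^ 4

lemma st (s : Bool × Bool) {u : F} (h : ¬ P (s.1, !s.2) u) : P s (ψ (mk [s]) * u * (mk [s])⁻¹) := by
  have e : ψ (mk [s]) = mk [s] * (mk [s] * (mk [s] * mk [s])) := by
    clear h; revert s; decide
  have k : ∀ {u : F} {l}, u.toWord = s :: l → (mk [s] * u).toWord = s :: s :: l := fun h => by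
    rw [lA _ _ (by simp [h, Prod.ext_iff]), h]
  rw [e]
  simp only [mul_assoc (mk [s]) _ u]
  rcases lC s u with h1 | h1
  · exact lB (k (k (k h1)))
  · exact lB (k (k (lA s _ fun h2 => by
      obtain ⟨l, h3⟩ := List.head?_eq_some_iff.1 h2
      exact h ⟨l, by rw [h1, h3]⟩)))

lemma pp {u : F} (hu : ∀ s, ¬ P s u) : ∀ l, IsReduced l → ∀ s ∈ l.head?,
    P s (ψ (mk l) * u * (mk l)⁻¹)
  | [], _, _, h => by simp at h
  | t :: l, h, s, hs => by
    obtain rfl : t = s := by simpa using hs
    have := st t (u := ψ (mk l) * u * (mk l)⁻¹) (by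
      cases l with
      | nil => simpa [← one_eq_mk] using hu _
      | cons r l =>
        obtain ⟨h1, h2⟩ := isReduced_cons_cons.1 h
        obtain ⟨a, ha⟩ := pp hu _ h2 r rfl
        rintro ⟨b, hb⟩
        obtain ⟨rfl, -⟩ := List.cons.inj (ha.symm.trans hb)
        simp at h1)
    rw [show mk (t :: l) = mk [t] * mk l from rfl, ψ.map_mul]
    simpa only [mul_inv_rev, mul_assoc] using this

def B (n : ℕ) : Set F := {x | x.norm ≤ n}

lemma fB (n : ℕ) : (B n).Finite :=
  (List.finite_length_le _ n).preimage toWord_injective.injOn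

def o (u : F) : Bool := match u.toWord with
  | [] => true
  | s :: _ => !s.1

lemma lo (u : F) (ε : Bool) : (mk [(o u, ε)] * u).toWord = (o u, ε) :: u.toWord :=
  lA _ _ (by unfold o; cases u.toWord <;> simp [Prod.ext_iff])

lemma c1 (n : ℕ) : 2 * (B n).ncard ≤ (B (n + 1)).ncard := by
  have := ncard_le_ncard_of_injOn (s := B n ×ˢ (univ : Set Bool)) (t := B (n + 1))
    (fun p => mk [(o p.1, p.2)] * p.1)
    (fun p hp => by simpa [B, FreeGroup.norm, lo] using hp) (fun p _ q _ h => by
      have := congrArg toWord h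
      simp only [lo, List.cons.injEq, Prod.mk.injEq, toWord_inj] at this
      exact Prod.ext this.2 this.1.2) (fB _)
  simpa [ncard_prod, mul_comm] using this

def D (n : ℕ) : Set F := {x ∈ B n | ∀ s, ¬ P s x}

lemma c2 (n : ℕ) : (B (n + 1)).ncard ≤ (B 2).ncard * (D (n + 1)).ncard := by
  have hf := (fB 2).prod ((fB (n + 1)).subset (sep_subset _ fun x => ∀ s, ¬ P s x))
  refine (ncard_le_ncard (fun x hx => ?_) (hf.image fun p => p.1 * p.2)).trans
    ((ncard_image_le hf).trans ncard_prod.le)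
  obtain ⟨g, y, h1, h2, rfl⟩ : ∃ g y : F, g.norm ≤ 1 ∧ y.norm ≤ n ∧ x = g * y := by
    have h := isReduced_toWord (x := x)
    have h' : x.toWord.length ≤ n + 1 := hx
    rw [← mk_toWord (x := x)]
    cases e : x.toWord with
    | nil => exact ⟨1, 1, by simp, by simp, rfl⟩
    | cons s l => exact ⟨mk [s], mk l, norm_mk_le, norm_mk_le.trans (by simpa [e] using h'), rfl⟩
  refine ⟨(g * (mk [(o y, true)])⁻¹, mk [(o y, true)] * y), ⟨(FreeGroup.norm_mul_le ..).trans ?_,
    by simpa [B, FreeGroup.norm, lo] using h2, ?_⟩, by simp only [mul_assoc, inv_mul_cancel_left]⟩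
  · have := norm_mk_le (L₁ := [(o y, true)])
    rw [norm_inv_eq]
    exact add_le_add h1 this
  · rintro s ⟨l, hl⟩
    rw [lo] at hl
    obtain ⟨h3, h4⟩ := List.cons.inj hl
    simp [o, h4, Prod.ext_iff] at h3

abbrev G := F × ℤˣ

def φ : G →* G := (MonoidHom.inl ..).comp (ψ.comp (MonoidHom.fst ..))

def X : Finset G := {(of true, 1), (of false, 1), (1, -1)}

def Y : Finset G := {(of true, 1), (of false, 1), (1, -1), (of true, -1), (of false, -1)}

lemma b1 {n : ℕ} {x : F} (h : x ∈ B n) : (x, 1) ∈ ball (X : Set G) n := by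
  refine ⟨x.toWord.map fun s => (mk [s], 1), (List.length_map ..).trans_le h, fun g hg => ?_, ?_⟩
  · obtain ⟨s, -, rfl⟩ := List.mem_map.1 hg
    clear hg
    revert s
    decide
  · conv_rhs => rw [← mk_toWord (x := x)]
    induction x.toWord with
    | nil => rfl
    | cons s l ih => rw [List.map_cons, List.prod_cons, ih]; rfl

lemma b2 (n : ℕ) : ball (Y : Set G) (n + 1) = B (n + 1) ×ˢ univ := by
  refine Subset.antisymm ?_ fun g hg => ?_
  · rintro _ ⟨l, h1, h2, rfl⟩
    refine ⟨le_trans ?_ h1, trivial⟩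
    clear h1
    induction l with
    | nil => simp
    | cons s l ih =>
      have : ∀ s ∈ Y, s.1.norm ≤ 1 := by decide
      have h3 : s.1.norm ≤ 1 := (h2 s (by simp)).elim (this s) fun h => by simpa using this _ h
      have : l.prod.1.norm ≤ l.length := ih fun s hs => h2 s (by simp [hs])
      have := FreeGroup.norm_mul_le s.1 l.prod.1
      simp only [List.prod_cons, Prod.fst_mul, List.length_cons]
      omega
  obtain ⟨x, e⟩ := g
  have h' : x.toWord.length ≤ n + 1 := hg.1
  rw [← mk_toWord (x := x)]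
  cases h : x.toWord with
  | nil =>
    rcases Int.units_eq_one_or e with rfl | rfl
    exacts [⟨[], by simp, by simp, rfl⟩, ⟨[(1, -1)], by simp, by decide, rfl⟩]
  | cons s l =>
    obtain ⟨r, h1, h2, h3⟩ := b1 (n := n) (x := mk l) (norm_mk_le.trans (by simpa [h] using h'))
    refine ⟨(mk [s], e) :: r, by simpa, fun t ht => ?_, by rw [List.prod_cons, h3]; simp [mul_mk]⟩
    have k : ∀ t ∈ X, t ∈ Y := by decide
    rcases List.mem_cons.1 ht with rfl | ht
    · exact (by decide : ∀ (s : Bool × Bool) (e : ℤˣ), (mk [s], e) ∈ Y ∨ (mk [s], e)⁻¹ ∈ Y) s e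
    · exact (h2 t ht).imp (k _) (k _)

lemma b3 (n : ℕ) : ball (X : Set G) (n + 1) ⊆ B (n + 1) ×ˢ {1} ∪ B n ×ˢ {-1} := by
  have : ∀ l : List G, (∀ s ∈ l, s ∈ (X : Set G) ∨ s⁻¹ ∈ (X : Set G)) →
      l.prod.1.norm ≤ l.length ∧ (l.prod.2 = 1 ∨ l.prod.1.norm < l.length) := fun l h2 => by
    induction l with
    | nil => simp
    | cons s l ih =>
      have : ∀ s ∈ X, s.1.norm ≤ 1 ∧ (s.2 = 1 ∨ s.1.norm = 0) := by decide
      have h3 : s.1.norm ≤ 1 ∧ (s.2 = 1 ∨ s.1.norm = 0) :=
        (h2 s (by simp)).elim (this s) fun h => by simpa using this _ h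
      have := ih fun s hs => h2 s (by simp [hs])
      have := FreeGroup.norm_mul_le s.1 l.prod.1
      simp only [List.prod_cons, Prod.fst_mul, Prod.snd_mul, List.length_cons]
      grind
  rintro _ ⟨l, h1, h2, rfl⟩
  obtain ⟨h3, h4⟩ := this l h2
  rcases Int.units_eq_one_or l.prod.2 with h | h
  · exact .inl ⟨h3.trans h1, h⟩
  · exact .inr ⟨Nat.le_of_lt_succ ((h4.resolve_left (by simp [h])).trans_le h1), h⟩

theorem result : ∃ (G : Type) (_ : Group G) (φ : G →* G) (X Y : Finset G),
    Subgroup.closure (X : Set G) = ⊤ ∧ Subgroup.closure (Y : Set G) = ⊤ ∧ tcr φ X ≠ tcr φ Y := by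
  have hX : Subgroup.closure (X : Set G) = ⊤ := eq_top_iff.2 fun g _ => by
    obtain ⟨l, -, h1, h2⟩ := b1 (x := g.1) (n := g.1.norm) (le_refl g.1.norm)
    rw [show g = l.prod * (1, g.2) by simp [h2]]
    refine mul_mem (list_prod_mem fun s hs => (h1 s hs).elim (fun h => Subgroup.subset_closure h)
      fun h => inv_mem_iff.1 (Subgroup.subset_closure h)) ?_
    rcases Int.units_eq_one_or g.2 with h | h <;> rw [h]
    exacts [one_mem _, Subgroup.subset_closure (by simp [X])]
  refine ⟨G, inferInstance, φ, X, Y, hX, top_unique (hX.ge.trans (Subgroup.closure_mono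
    (Finset.coe_subset.2 (by decide)))), ne_of_gt ?_⟩
  have p : ∀ n, 0 < (B n).ncard := fun n => (ncard_pos (fB n)).2 ⟨1, by simp [B]⟩
  have fY : ∀ n, (ball (Y : Set G) (n + 1)).Finite := fun n => b2 n ▸ (fB _).prod finite_univ
  have fX : ∀ n, (ball (X : Set G) (n + 1)).Finite := fun n =>
    (((fB _).prod (finite_singleton _)).union ((fB _).prod (finite_singleton _))).subset (b3 n)
  have u1 : ∀ (Z : Set G) n, ((cls φ '' ball Z n).ncard : ℝ) / (ball Z n).ncard ≤ 1 := fun Z n => by
    by_cases h : (ball Z n).Finite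
    · exact div_le_one_of_le₀ (by exact_mod_cast ncard_image_le h) (by positivity)
    · simp [Infinite.ncard h]
  have k : ∀ n, ((cls φ '' ball Y (n + 1)).ncard : ℝ) / (ball (Y : Set G) (n + 1)).ncard +
      1 / (6 * (B 2).ncard) ≤ (cls φ '' ball X (n + 1)).ncard / (ball (X : Set G) (n + 1)).ncard := by
    intro n
    have h1 : (cls φ '' ball Y (n + 1)).ncard ≤ (cls φ '' ball X (n + 1)).ncard := by
      refine ncard_le_ncard ?_ ((fX n).image _)
      rintro _ ⟨⟨x, e⟩, hx, rfl⟩
      rw [b2] at hx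
      refine ⟨_, b1 hx.1, ext fun z => ⟨?_, ?_⟩⟩ <;> rintro ⟨w, rfl⟩ <;>
        exact ⟨w * (1, e), by simp [φ, Prod.ext_iff, mul_assoc]⟩
    have h2 : (D (n + 1)).ncard ≤ (cls φ '' ball Y (n + 1)).ncard :=
      ncard_le_ncard_of_injOn (fun u => cls φ (u⁻¹, 1))
        (fun u hu => ⟨_, b2 n ▸ ⟨by simpa [B] using hu.1, trivial⟩, rfl⟩) (fun u hu v hv h => by
          obtain ⟨⟨y, e⟩, h3⟩ : (u⁻¹, 1) ∈ cls φ (v⁻¹, 1) :=
            (Set.ext_iff.1 h _).1 ⟨1, by simp⟩
          have h4 : u = ψ y * v * y⁻¹ := by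
            simpa [φ, mul_assoc] using congrArg (·.1⁻¹) h3
          cases h5 : y.toWord with
          | nil => simpa [toWord_eq_nil_iff.1 h5] using h4
          | cons s l =>
            have := pp hv.2 _ (isReduced_toWord (x := y)) s (by simp [h5])
            rw [mk_toWord, ← h4] at this
            exact (hu.2 s this).elim) ((fY n).image _)
    have h3 : (ball (Y : Set G) (n + 1)).ncard = (B (n + 1)).ncard * 2 := by
      simp [b2, ncard_prod]
    have h4 : (ball (X : Set G) (n + 1)).ncard ≤ (B (n + 1)).ncard + (B n).ncard :=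
      (ncard_le_ncard (b3 n) (((fB _).prod (finite_singleton _)).union
        ((fB _).prod (finite_singleton _)))).trans ((ncard_union_le ..).trans (by simp [ncard_prod]))
    have h5 : 0 < (ball (X : Set G) (n + 1)).ncard := (ncard_pos (fX n)).2 ⟨1, [], by simp⟩
    have h6 := (c2 n).trans (Nat.mul_le_mul_left _ h2)
    have h7 := c1 n
    have h8 := p (n + 1)
    have h9 := p 2
    rw [h3]
    generalize (cls φ '' ball Y (n + 1)).ncard = t at *
    generalize (cls φ '' ball X (n + 1)).ncard = t' at *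
    generalize (ball (X : Set G) (n + 1)).ncard = x at *
    generalize (B (n + 1)).ncard = b at *
    generalize (B 2).ncard = k at *
    rw [div_add_div _ _ (by positivity) (by positivity), div_le_div_iff₀ (by positivity)
      (by positivity)]
    have : (t * (6 * k) + b * 2 * 1) * x ≤ t' * (b * 2 * (6 * k)) :=
      calc _ ≤ (8 * (k * t)) * x := Nat.mul_le_mul_right _ (by linarith)
        _ = 4 * (k * t) * (2 * x) := by ring
        _ ≤ 4 * (k * t') * (3 * b) := Nat.mul_le_mul (by gcongr) (by omega)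
        _ = _ := by ring
    exact_mod_cast this
  have c0 : (0 : ℝ) < 1 / (6 * (B 2).ncard) := by have := p 2; positivity
  refine (lt_add_of_pos_right _ c0).trans_le ?_
  rw [tcr, ← limsup_add_const _ _ _ (isBoundedUnder_of ⟨1, u1 _⟩)
    (isCoboundedUnder_le_of_le _ (x := 0) fun _ => by positivity)]
  refine limsup_le_limsup (eventually_atTop.2 ⟨1, fun n hn => ?_⟩)
    (isCoboundedUnder_le_of_le _ (x := 0) fun _ => by positivity) (isBoundedUnder_of ⟨1, u1 _⟩)
  obtain ⟨n, rfl⟩ := Nat.exists_eq_add_of_le' hn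
  exact k n

end Pool.Agent.Results.MP_91bf1e_al.Yes
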